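import Pool.Agent.Helper98.SPR.Stmts

/-!
Row EDGE of the sparse-root recurrence theorem: facts about touching discs.
-/

namespace SPR

open Finset

theorem edge_tadj {K : ℝ} {V : Type} {c : V → V → ℕ} (M : DiscModel K c)
    {a b : Fin M.N} (h : M.TAdj a b) :
    dist (M.ctr a) (M.ctr b) = M.rad a + M.rad b ∧ M.rad a ≤ K * M.rad b ∧
      M.rad b ≤ K * M.rad a ∧ (M.own a = M.own b ∨ c (M.own a) (M.own b) ≠ 0) := by
  rcases h with ⟨h1, h2⟩ | ⟨h1, h2⟩ | h1
  · subst h2
    obtain ⟨e1, e2, e3⟩ := M.par_touch a h1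
    exact ⟨e1, e2, e3, Or.inl (M.own_par a).symm⟩
  · subst h2
    obtain ⟨e1, e2, e3⟩ := M.par_touch b h1
    refine ⟨?_, e3, e2, Or.inl (M.own_par b)⟩
    rw [dist_comm, e1]; ring
  · obtain ⟨e1, e2, e3⟩ := M.e_touch a b h1
    refine ⟨e1, e2, e3, Or.inr ?_⟩
    rw [← M.e_sum]
    intro hz
    rw [Finset.sum_eq_zero_iff] at hz
    have h3 := hz a (by simp)
    rw [Finset.sum_eq_zero_iff] at h3
    exact h1 (h3 b (by simp))

theorem st_EDGE : ST_EDGE := by
  intro K V c M hK a b hab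
  have hsym : dist (M.ctr a) (M.ctr b) = M.rad a + M.rad b ∧ M.rad a ≤ K * M.rad b ∧
      M.rad b ≤ K * M.rad a ∧ (M.own a = M.own b ∨ c (M.own a) (M.own b) ≠ 0 ∨
        c (M.own b) (M.own a) ≠ 0) := by
    rw [DiscModel.TG, SimpleGraph.fromRel_adj] at hab
    rcases hab.2 with h | h
    · obtain ⟨e1, e2, e3, e4⟩ := edge_tadj M h
      refine ⟨e1, e2, e3, ?_⟩
      rcases e4 with e4 | e4
      · exact Or.inl e4
      · exact Or.inr (Or.inl e4)
    · obtain ⟨e1, e2, e3, e4⟩ := edge_tadj M h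
      refine ⟨by rw [dist_comm, e1]; ring, e3, e2, ?_⟩
      rcases e4 with e4 | e4
      · exact Or.inl e4.symm
      · exact Or.inr (Or.inr e4)
  obtain ⟨e1, e2, e3, e4⟩ := hsym
  refine ⟨e2, e4, ?_⟩
  intro z
  have ha := M.rad_pos a
  have hb := M.rad_pos b
  have hFa : M.rad a ≤ fd M.ctr M.rad z a := by
    rw [fd]; have := dist_nonneg (x := M.ctr a) (y := z); linarith
  have hFb : M.rad b ≤ fd M.ctr M.rad z b := by
    rw [fd]; have := dist_nonneg (x := M.ctr b) (y := z); linarith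
  have h1 : fd M.ctr M.rad z b ≤ fd M.ctr M.rad z a + 2 * M.rad b := by
    rw [fd, fd]
    have := dist_triangle (M.ctr b) (M.ctr a) z
    rw [dist_comm (M.ctr b) (M.ctr a), e1] at this
    linarith
  have h2 : fd M.ctr M.rad z a ≤ fd M.ctr M.rad z b + 2 * M.rad a := by
    rw [fd, fd]
    have := dist_triangle (M.ctr a) (M.ctr b) z
    rw [e1] at this
    linarith
  refine ⟨h1, ?_⟩
  obtain ⟨Fa, hFa'⟩ : ∃ Fa, Fa = fd M.ctr M.rad z a := ⟨_, rfl⟩
  obtain ⟨Fb, hFb'⟩ : ∃ Fb, Fb = fd M.ctr M.rad z b := ⟨_, rfl⟩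
  rw [← hFa'] at h1 h2 hFa ⊢
  rw [← hFb'] at h1 h2 hFb ⊢
  have hFa0 : 0 < Fa := by linarith
  have hFb0 : 0 < Fb := by linarith
  have hK0 : 0 < K := by linarith
  rw [abs_le]
  have hq : 0 ≤ M.rad a / Fa := by positivity
  constructor
  · -- log Fa - log Fb ≤ 6 K rad a / Fa
    have h3 : Real.log Fa - Real.log Fb ≤ Fa / Fb - 1 := by
      rw [← Real.log_div hFa0.ne' hFb0.ne']
      exact Real.log_le_sub_one_of_pos (by positivity)
    have h4 : Fa / Fb - 1 ≤ 2 * M.rad a / Fb := by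
      rw [div_sub_one hFb0.ne']
      exact div_le_div_of_nonneg_right (by linarith) hFb0.le
    have h5 : Fa ≤ (1 + 2 * K) * Fb := by
      have : M.rad a ≤ K * Fb := le_trans e2 (mul_le_mul_of_nonneg_left hFb hK0.le)
      linarith
    have h6 : 2 * M.rad a / Fb ≤ 6 * K * (M.rad a / Fa) := by
      rw [← mul_div_assoc, div_le_div_iff₀ hFb0 hFa0]
      calc 2 * M.rad a * Fa ≤ 2 * M.rad a * ((1 + 2 * K) * Fb) :=
            mul_le_mul_of_nonneg_left h5 (by positivity)
        _ ≤ 2 * M.rad a * ((3 * K) * Fb) := by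
            apply mul_le_mul_of_nonneg_left _ (by positivity)
            exact mul_le_mul_of_nonneg_right (by linarith) hFb0.le
        _ = 6 * K * M.rad a * Fb := by ring
    linarith
  · have h3 : Real.log Fb - Real.log Fa ≤ Fb / Fa - 1 := by
      rw [← Real.log_div hFb0.ne' hFa0.ne']
      exact Real.log_le_sub_one_of_pos (by positivity)
    have h4 : Fb / Fa - 1 ≤ 2 * M.rad b / Fa := by
      rw [div_sub_one hFa0.ne']
      exact div_le_div_of_nonneg_right (by linarith) hFa0.le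
    have h6 : 2 * M.rad b / Fa ≤ 6 * K * (M.rad a / Fa) := by
      rw [← mul_div_assoc]
      apply div_le_div_of_nonneg_right _ hFa0.le
      nlinarith
    linarith

end SPR
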